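import Pool.Agent.Y264.QR.Stm2
import Pool.Agent.Y986.QE.Eig
import Pool.Agent.Y492.QE.Conf
import Pool.Agent.Y708.QE.Gr
import Pool.Agent.Y274.QE.Fin
import Pool.Agent.Y960.QE.Int
import Pool.Agent.Y469.QE.Mul

/-!
# Project QR (helper264), job BR: eigenfunctions of the surface are eigenvectors of the forms
-/

set_option autoImplicit false

open Set Filter Topology MeasureTheory
open scoped Real ContDiff

noncomputable section

namespace Pool.Agent.Y708.QR

open Pool.Agent.Y262.QE Pool.Agent.Y264.QR Pool.Agent.Y986.QE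

theorem tt {H : Type} [NormedAddCommGroup H] [InnerProductSpace ℝ H] {a b : H →L[ℝ] H →L[ℝ] ℝ}
    (hF : Fm a b) {e : ℕ → H} {E : ℕ → ℝ} (horth : ∀ i j, b (e i) (e j) = if i = j then 1 else 0)
    (heig : ∀ j v, a (e j) v = E j * b (e j) v) (hmono : Monotone E) : Tendsto E atTop atTop := by
  rcases tendsto_atTop_of_monotone hmono with h | ⟨l, hl⟩
  · exact h
  exfalso
  have hle : ∀ j, E j ≤ l := fun j => hmono.ge_of_tendsto hl j
  obtain ⟨c, hc, hco⟩ := hF.co
  set C : ℝ := max l 0 with hC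
  have hC0 : 0 ≤ C := le_max_right _ _
  have hEC : ∀ j, E j ≤ C := fun j => (hle j).trans (le_max_left _ _)
  obtain ⟨N, L, hL⟩ := hF.cp (c / (2 * (C + 1))) (by positivity)
  let T : (Fin (N + 1) → ℝ) →ₗ[ℝ] H :=
    Fintype.linearCombination ℝ (fun j : Fin (N + 1) => e j)
  let S : (Fin (N + 1) → ℝ) →ₗ[ℝ] (Fin N → ℝ) :=
    LinearMap.pi fun i => (L i : H →ₗ[ℝ] ℝ) ∘ₗ T
  have hker : LinearMap.ker S ≠ ⊥ := LinearMap.ker_ne_bot_of_finrank_lt (by simp)
  obtain ⟨x, hx, hx0⟩ := Submodule.exists_mem_ne_zero_of_ne_bot hker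
  have hT : T x = ∑ j, x j • e j := by
    simp [T, Fintype.linearCombination_apply]
  have hb1 : ∀ k : Fin (N + 1), b (e k) (T x) = x k := by
    intro k
    rw [hT, map_sum]
    rw [Finset.sum_eq_single k]
    · rw [map_smul, horth, if_pos rfl, smul_eq_mul, mul_one]
    · intro j _ hj
      rw [map_smul, horth, if_neg, smul_zero]
      intro h
      exact hj (Fin.ext h.symm)
    · intro h
      exact absurd (Finset.mem_univ k) h
  have hb2 : b (T x) (T x) = ∑ k, (x k) ^ 2 := by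
    have h1 : b (T x) (T x) = ∑ k : Fin (N + 1), x k * b (e k) (T x) := by
      conv_lhs => rw [show b (T x) = ∑ k : Fin (N + 1), x k • b (e k) from by
        rw [hT, map_sum]; exact Finset.sum_congr rfl fun k _ => map_smul _ _ _]
      rw [sum_apply]
      rfl
    rw [h1]
    exact Finset.sum_congr rfl fun k _ => by rw [hb1]; ring
  have ha2 : a (T x) (T x) ≤ C * ∑ k, (x k) ^ 2 := by
    have h1 : a (T x) (T x) = ∑ k : Fin (N + 1), x k * a (e k) (T x) := by
      conv_lhs => rw [show a (T x) = ∑ k : Fin (N + 1), x k • a (e k) from by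
        rw [hT, map_sum]; exact Finset.sum_congr rfl fun k _ => map_smul _ _ _]
      rw [sum_apply]
      rfl
    rw [h1, Finset.mul_sum]
    refine Finset.sum_le_sum fun k _ => ?_
    rw [heig, hb1]
    nlinarith [mul_le_mul_of_nonneg_right (hEC k) (sq_nonneg (x k))]
  have hpos : 0 < ∑ k, (x k) ^ 2 := by
    obtain ⟨k, hk⟩ : ∃ k, x k ≠ 0 := by
      by_contra hno
      push Not at hno
      exact hx0 (funext hno)
    exact Finset.sum_pos' (fun k _ => sq_nonneg _) ⟨k, Finset.mem_univ k, by positivity⟩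
  have hLx : ∀ i, L i (T x) = 0 := by
    intro i
    have h1 : S x = 0 := hx
    exact congrFun h1 i
  have h1 := hL (T x)
  have h2 : ∑ i, (L i (T x)) ^ 2 = 0 := Finset.sum_eq_zero fun i _ => by rw [hLx]; ring
  rw [h2, add_zero, hb2] at h1
  have h3 := hco (T x)
  rw [hb2] at h3
  have h4 : c * ‖T x‖ ^ 2 ≤ (C + 1) * ∑ k, (x k) ^ 2 := by linarith
  have h5 : c / (2 * (C + 1)) * ‖T x‖ ^ 2 = (c * ‖T x‖ ^ 2) / (2 * (C + 1)) := by ring
  have h6 : (c * ‖T x‖ ^ 2) / (2 * (C + 1)) ≤ (∑ k, (x k) ^ 2) / 2 := by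
    rw [div_le_div_iff₀ (by positivity) (by norm_num)]
    nlinarith
  rw [h5] at h1
  linarith

section
variable {M : Type} [MeasurableSpace M]

/-- Parseval's formula for a complete orthonormal system of functions. -/
theorem parseval {ν : Measure M} {u : ℕ → M → ℝ} (hu : ∀ j, MemLp (u j) 2 ν)
    (horth : ∀ i j, ∫ x, u i x * u j x ∂ν = if i = j then 1 else 0)
    (htot : ∀ f : M → ℝ, MemLp f 2 ν → (∀ j, ∫ x, f x * u j x ∂ν = 0) → f =ᵐ[ν] 0)
    {f : M → ℝ} (hf : MemLp f 2 ν) :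
    HasSum (fun j => (∫ x, f x * u j x ∂ν) ^ 2) (∫ x, (f x) ^ 2 ∂ν) := by
  have hin : ∀ {f g : M → ℝ} (hf : MemLp f 2 ν) (hg : MemLp g 2 ν),
      inner ℝ (hf.toLp f) (hg.toLp g) = ∫ x, f x * g x ∂ν := by
    intro f g hf hg
    rw [L2.inner_def]
    refine integral_congr_ae ?_
    filter_upwards [hf.coeFn_toLp, hg.coeFn_toLp] with x h1 h2
    rw [h1, h2]
    simp [mul_comm]
  have hon : Orthonormal ℝ (fun j => (hu j).toLp (u j)) := by
    rw [orthonormal_iff_ite]
    intro i j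
    rw [hin, horth]
  have hbot : (Submodule.span ℝ (Set.range fun j => (hu j).toLp (u j)))ᗮ = ⊥ := by
    rw [Submodule.eq_bot_iff]
    intro g hg
    rw [Submodule.mem_orthogonal] at hg
    have h1 := htot g (Lp.memLp g) fun j => by
      have h2 := hg _ (Submodule.subset_span ⟨j, rfl⟩)
      have h3 : inner ℝ ((hu j).toLp (u j)) ((Lp.memLp g).toLp g) =
        ∫ x, u j x * g x ∂ν := hin (hu j) (Lp.memLp g)
      rw [Lp.toLp_coeFn] at h3
      rw [h3] at h2
      rw [← h2]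
      exact integral_congr_ae (Eventually.of_forall fun x => mul_comm _ _)
    exact (Lp.eq_zero_iff_ae_eq_zero).2 h1
  let B := HilbertBasis.mkOfOrthogonalEqBot hon hbot
  have hB : ∀ j, B j = (hu j).toLp (u j) := by
    intro j
    exact congrFun (HilbertBasis.coe_mkOfOrthogonalEqBot hon hbot) j
  have h1 := B.hasSum_inner_mul_inner (hf.toLp f) (hf.toLp f)
  rw [hin hf hf] at h1
  simp only [hB] at h1
  have e1 : ∀ j, inner ℝ (hf.toLp f) ((hu j).toLp (u j)) * inner ℝ ((hu j).toLp (u j)) (hf.toLp f) =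
      (∫ x, f x * u j x ∂ν) ^ 2 := by
    intro j
    rw [real_inner_comm (hf.toLp f) ((hu j).toLp (u j)), hin hf (hu j)]
    ring
  have e2 : ∫ x, f x * f x ∂ν = ∫ x, (f x) ^ 2 ∂ν :=
    integral_congr_ae (Eventually.of_forall fun x => (pow_two _).symm)
  simp only [e1] at h1
  rw [e2] at h1
  exact h1

theorem memLp_of_wm {μ : Measure M} {w : M → ℝ} {c : ℝ} (hc : 0 < c) (hw : ∀ x, c ≤ w x)
    {u : M → ℝ} (hu : MemLp u 2 (wm μ w)) : MemLp u 2 μ := by
  have h1 : (ENNReal.ofReal c) • μ ≤ wm μ w := by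
    rw [← withDensity_const]
    exact withDensity_mono (Eventually.of_forall fun x => ENNReal.ofReal_le_ofReal (hw x))
  have h2 := hu.mono_measure h1
  have h0 : ENNReal.ofReal c ≠ 0 := by
    rw [Ne, ENNReal.ofReal_eq_zero, not_le]
    exact hc
  have h3 := h2.smul_measure (c := (ENNReal.ofReal c)⁻¹) (ENNReal.inv_ne_top.2 h0)
  rwa [smul_smul, ENNReal.inv_mul_cancel h0 ENNReal.ofReal_ne_top, one_smul] at h3

end

section
variable {M : Type} [MetricSpace M] [CompactSpace M] [MeasurableSpace M] [BorelSpace M]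

theorem ex_vec (hDen : StDenF) {μ : Measure M} {D : Data M} (hD : D.IsSurf μ) {w : M → ℝ}
    (hw : Continuous w) {c : ℝ} (hc : 0 < c) (hwc : ∀ x, c ≤ w x) {u : M → ℝ} {lam : ℝ}
    (hu : (D.conf w).IsEig (wm μ w) lam u) :
    ∃ v ∈ HF D μ, (v.fst : M → ℝ) =ᵐ[μ] u ∧ ∀ v' ∈ HF D μ, inner ℝ v.snd v'.snd =
      lam * ∫ x, w x * ((v.fst : M → ℝ) x * (v'.fst : M → ℝ) x) ∂μ := by
  have hp : ∀ x, 0 < w x := fun x => lt_of_lt_of_le hc (hwc x)
  obtain ⟨hfin, -⟩ := Pool.Agent.Y274.QE.Fin.fin M μ D hD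
  obtain ⟨-, hcgr⟩ := Pool.Agent.Y492.QE.conf Pool.Agent.Y960.QE.int_chart M μ D hD w hw hp
  obtain ⟨hD1, hD2⟩ := hDen M μ D hD
  obtain ⟨hmem, F, hF, hconv, hcau, heig⟩ := hu
  have hF' : ∀ k, D.C1 (F k) := hF
  choose f hfH hf1 hf2 using fun k => hD1 (F k) (hF' k)
  have huμ : MemLp u 2 μ := memLp_of_wm hc hwc hmem
  set U := huμ.toLp u with hU
  obtain ⟨C, hC0, hC⟩ := bdd_of_cont hw
  -- convergence of the functions
  have h1 : ∀ k, ‖(f k).fst - U‖ ^ 2 ≤ c⁻¹ * ∫ x, (F k x - u x) ^ 2 ∂(wm μ w) := by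
    intro k
    rw [int_wm hw hp]
    have e1 : ∫ x, w x * (F k x - u x) ^ 2 ∂μ =
        ∫ x, w x * ((((f k).fst - U : Lp ℝ 2 μ) : M → ℝ) x) ^ 2 ∂μ := by
      refine integral_congr_ae ?_
      filter_upwards [hf1 k, huμ.coeFn_toLp, Lp.coeFn_sub (f k).fst U] with x hx1 hx2 hx3
      rw [hx3, Pi.sub_apply, hx1, hx2]
    rw [e1, ← int_sq, ← integral_const_mul]
    refine integral_mono_of_nonneg (Eventually.of_forall fun x => sq_nonneg _) ?_
      (Eventually.of_forall fun x => ?_)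
    · refine Integrable.const_mul ?_ _
      exact (integrable_sq _).bdd_mul (c := C) hw.aestronglyMeasurable
        (Eventually.of_forall fun x => hC x)
    · show _ ≤ c⁻¹ * (w x * _)
      rw [← mul_assoc]
      refine le_mul_of_one_le_left (sq_nonneg _) ?_
      rw [inv_mul_eq_div, le_div_iff₀ hc, one_mul]
      exact hwc x
  have h2 : Tendsto (fun k => (f k).fst) atTop (𝓝 U) := by
    rw [tendsto_iff_norm_sub_tendsto_zero]
    have h3 : Tendsto (fun k => ‖(f k).fst - U‖ ^ 2) atTop (𝓝 0) := by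
      refine squeeze_zero (fun k => sq_nonneg _) h1 ?_
      simpa using hconv.const_mul c⁻¹
    have h4 := h3.sqrt
    simpa [Real.sqrt_sq (norm_nonneg _)] using h4
  -- convergence of the gradients
  have heq : ∀ p : ℕ × ℕ, ∫ x, ‖(D.conf w).gr (F p.1) x - (D.conf w).gr (F p.2) x‖ ^ 2 ∂(wm μ w) =
      ‖(f p.1).snd - (f p.2).snd‖ ^ 2 := by
    intro p
    rw [int_wm hw hp, ← int_sqC]
    refine integral_congr_ae ?_
    have h3 : (((f p.1).snd - (f p.2).snd : Lp ℂ 2 μ) : M → ℂ) =ᵐ[μ]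
        ((f p.1).snd : M → ℂ) - ((f p.2).snd : M → ℂ) := Lp.coeFn_sub _ _
    filter_upwards [hf2 p.1, hf2 p.2, h3] with x hx1 hx2 hx3
    rw [hx3, Pi.sub_apply, hx1, hx2, hcgr, hcgr, ← smul_sub, norm_smul, mul_pow, Real.norm_eq_abs,
      sq_abs, inv_pow, Real.sq_sqrt (hp x).le, ← mul_assoc, mul_inv_cancel₀ (hp x).ne', one_mul]
  have hcau2 : CauchySeq fun k => (f k).snd := by
    rw [cauchySeq_iff_tendsto_dist_atTop_0]
    simp only [heq] at hcau
    have h4 := hcau.sqrt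
    simp only [Real.sqrt_sq (norm_nonneg _), Real.sqrt_zero] at h4
    exact h4.congr fun p => (dist_eq_norm _ _).symm
  obtain ⟨Z, hZ⟩ := cauchySeq_tendsto_of_complete hcau2
  set v : WithLp 2 (Lp ℝ 2 μ × Lp ℂ 2 μ) := WithLp.toLp 2 (U, Z) with hv
  have hlim : Tendsto f atTop (𝓝 v) := by
    have h3 := ((WithLp.prod_continuous_toLp 2 (Lp ℝ 2 μ) (Lp ℂ 2 μ)).tendsto (U, Z)).comp
      (h2.prodMk_nhds hZ)
    exact h3
  have hvH : v ∈ HF D μ :=
    (Submodule.isClosed_topologicalClosure _).mem_of_tendsto hlim (Eventually.of_forall hfH)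
  have hvu : (v.fst : M → ℝ) =ᵐ[μ] u := huμ.coeFn_toLp
  refine ⟨v, hvH, hvu, ?_⟩
  have hsnd : Continuous (fun x : WithLp 2 (Lp ℝ 2 μ × Lp ℂ 2 μ) => x.snd) :=
    WithLp.continuous_snd 2 _ _
  have hfst : Continuous (fun x : WithLp 2 (Lp ℝ 2 μ × Lp ℂ 2 μ) => x.fst) :=
    WithLp.continuous_fst 2 _ _
  -- test functions
  have hkey : ∀ (G : M → ℝ) (g : WithLp 2 (Lp ℝ 2 μ × Lp ℂ 2 μ)), D.C1 G →
      (g.fst : M → ℝ) =ᵐ[μ] G → (g.snd : M → ℂ) =ᵐ[μ] D.gr G → inner ℝ v.snd g.snd =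
        lam * ∫ x, w x * ((v.fst : M → ℝ) x * (g.fst : M → ℝ) x) ∂μ := by
    intro G g hG hg1 hg2
    have e1 : Tendsto (fun k => inner ℝ (f k).snd g.snd) atTop (𝓝 (inner ℝ v.snd g.snd)) := by
      have hcn : Continuous (fun x : WithLp 2 (Lp ℝ 2 μ × Lp ℂ 2 μ) => inner ℝ x.snd g.snd) :=
        hsnd.inner continuous_const
      exact (hcn.tendsto v).comp hlim
    have e2 : ∀ k, ∫ x, inner ℝ ((D.conf w).gr (F k) x) ((D.conf w).gr G x) ∂(wm μ w) =
        inner ℝ (f k).snd g.snd := by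
      intro k
      rw [int_wm hw hp, L2.inner_def]
      refine integral_congr_ae ?_
      filter_upwards [hf2 k, hg2] with x hx1 hx2
      rw [hx1, hx2, hcgr, hcgr, real_inner_smul_left, real_inner_smul_right]
      have h3 : Real.sqrt (w x) * Real.sqrt (w x) = w x := Real.mul_self_sqrt (hp x).le
      have h4 : Real.sqrt (w x) ≠ 0 := (Real.sqrt_pos.2 (hp x)).ne'
      calc w x * ((Real.sqrt (w x))⁻¹ * ((Real.sqrt (w x))⁻¹ *
            inner ℝ (D.gr (F k) x) (D.gr G x)))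
          = (Real.sqrt (w x) * Real.sqrt (w x)) *
            ((Real.sqrt (w x))⁻¹ * ((Real.sqrt (w x))⁻¹ *
              inner ℝ (D.gr (F k) x) (D.gr G x))) := by rw [h3]
        _ = (Real.sqrt (w x) * (Real.sqrt (w x))⁻¹) * (Real.sqrt (w x) * (Real.sqrt (w x))⁻¹) *
            inner ℝ (D.gr (F k) x) (D.gr G x) := by ring
        _ = inner ℝ (D.gr (F k) x) (D.gr G x) := by rw [mul_inv_cancel₀ h4, one_mul, one_mul]
    have e3 := heig G hG
    simp only [e2] at e3
    rw [tendsto_nhds_unique e1 e3, int_wm hw hp]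
    congr 1
    refine integral_congr_ae ?_
    filter_upwards [hvu, hg1] with x hx1 hx2
    rw [hx1, hx2]
  intro v' hv'
  obtain ⟨G, g, hG, hlim'⟩ := hD2 v' hv'
  obtain ⟨B, hB⟩ := Pool.Agent.Y469.QE.mul M μ w hw.measurable C hC
  have e1 : Tendsto (fun k => inner ℝ v.snd (g k).snd) atTop (𝓝 (inner ℝ v.snd v'.snd)) := by
    have hcn : Continuous (fun x : WithLp 2 (Lp ℝ 2 μ × Lp ℂ 2 μ) => inner ℝ v.snd x.snd) :=
      continuous_const.inner hsnd
    exact (hcn.tendsto v').comp hlim'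
  have e2 : Tendsto (fun k => lam * B v.fst (g k).fst) atTop (𝓝 (lam * B v.fst v'.fst)) := by
    have hcn : Continuous (fun x : WithLp 2 (Lp ℝ 2 μ × Lp ℂ 2 μ) => lam * B v.fst x.fst) :=
      continuous_const.mul ((B v.fst).continuous.comp hfst)
    exact (hcn.tendsto v').comp hlim'
  have e3 : ∀ k, lam * B v.fst (g k).fst = inner ℝ v.snd (g k).snd := by
    intro k
    rw [hB]
    exact (hkey (G k) (g k) (hG k).1 (hG k).2.2.1 (hG k).2.2.2).symm
  simp only [e3] at e2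
  rw [tendsto_nhds_unique e1 e2, hB]

end

/-- eigenfunctions of the surface are eigenvectors of the forms -/
theorem br : StDenF → StBr := by
  intro hDen M _ _ _ _ μ D hD i a b _ hi ha hb hFm φ u lam hE
  set w : M → ℝ := fun x => Real.exp (φ x) with hwdef
  have hw : Continuous w := Real.continuous_exp.comp φ.continuous
  have hp : ∀ x, 0 < w x := fun x => Real.exp_pos _
  have hwc : ∀ x, Real.exp (-‖φ‖) ≤ w x := by
    intro x
    apply Real.exp_le_exp.2
    have h1 := φ.norm_coe_le_norm x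
    rw [Real.norm_eq_abs] at h1
    exact (abs_le.1 h1).1
  choose v hv huv hev using fun j => ex_vec hDen hD hw (Real.exp_pos _) hwc (hE.eig j)
  have hbe : ∀ x y : HF D μ, b φ x y =
      ∫ z, w z * ((x.1.fst : M → ℝ) z * (y.1.fst : M → ℝ) z) ∂μ := by
    intro x y
    rw [hb, hi, hi]
  have horth : ∀ j k, b φ ⟨v j, hv j⟩ ⟨v k, hv k⟩ = if j = k then 1 else 0 := by
    intro j k
    rw [hbe, ← hE.orth j k, int_wm hw hp]
    refine integral_congr_ae ?_
    filter_upwards [huv j, huv k] with x hx1 hx2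
    show w x * ((v j).fst x * (v k).fst x) = _
    rw [hx1, hx2]
  have heig : ∀ j (y : HF D μ), a ⟨v j, hv j⟩ y = lam j * b φ ⟨v j, hv j⟩ y := by
    intro j y
    rw [ha, hbe]
    exact hev j y.1 y.2
  refine ⟨fun j => ⟨v j, hv j⟩, fun j => ?_, ⟨horth, heig, hE.mono,
    tt (hFm φ) horth heig hE.mono, fun y => ?_⟩⟩
  · rw [hi]
    exact huv j
  · have hy : MemLp (y.1.fst : M → ℝ) 2 (wm μ w) := memLp_wm hw (Lp.memLp _)
    have h1 := parseval (fun j => (hE.eig j).mem) hE.orth hE.total hy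
    have e1 : ∀ j, (∫ x, (y.1.fst : M → ℝ) x * u j x ∂(wm μ w)) = b φ y ⟨v j, hv j⟩ := by
      intro j
      rw [hbe, int_wm hw hp]
      refine integral_congr_ae ?_
      filter_upwards [huv j] with x hx1
      rw [hx1]
    have e2 : ∫ x, ((y.1.fst : M → ℝ) x) ^ 2 ∂(wm μ w) = b φ y y := by
      rw [hbe, int_wm hw hp]
      refine integral_congr_ae (Eventually.of_forall fun x => ?_)
      show w x * ((y.1.fst : M → ℝ) x) ^ 2 = w x * ((y.1.fst : M → ℝ) x * (y.1.fst : M → ℝ) x)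
      ring
    simp only [e1, e2] at h1
    exact h1

end Pool.Agent.Y708.QR
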